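import Pool.Agent.Y223.G.Stm13
import Pool.Agent.Y872.H.Rein

/-!
# Products of elliptic curves: the operator has no zeros outside the vertex
-/

set_option autoImplicit false

namespace Pool.Agent.Y363.H

open Pool.Agent.Y223.G
open Pool.Agent.Y872.H (pos_gen)
open Pool.Agent.Y86.G5 (im im_mul im_prime im_one im_pow)

section forms

variable {O K : Type} [CommRing O] [Field K] [Algebra O K] {z : Fin (2 + 1) → K}

theorem MN_split {d₁ d₂ : ℕ} {x : K} (hx : x ∈ MN z (d₁ + d₂)) :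
    ∃ x₁ ∈ MN z d₁, ∃ x₂ ∈ MN z d₂, x = x₁ * x₂ := by
  obtain ⟨a, ha, rfl⟩ := hx
  rw [Fin.sum_univ_three] at ha
  obtain ⟨b0, b1, b2, h0, h1, h2, hb⟩ : ∃ b0 b1 b2 : ℕ, b0 ≤ a 0 ∧ b1 ≤ a 1 ∧ b2 ≤ a 2 ∧
      b0 + b1 + b2 = d₁ :=
    ⟨min (a 0) d₁, min (a 1) (d₁ - min (a 0) d₁),
      d₁ - min (a 0) d₁ - min (a 1) (d₁ - min (a 0) d₁), by omega, by omega, by omega, by omega⟩
  refine ⟨z 0 ^ b0 * z 1 ^ b1 * z 2 ^ b2, ⟨![b0, b1, b2], ?_, ?_⟩,
    z 0 ^ (a 0 - b0) * z 1 ^ (a 1 - b1) * z 2 ^ (a 2 - b2),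
    ⟨![a 0 - b0, a 1 - b1, a 2 - b2], ?_, ?_⟩, ?_⟩
  · rw [Fin.sum_univ_three]
    exact hb
  · rw [Fin.prod_univ_three]
    rfl
  · rw [Fin.sum_univ_three]
    show (a 0 - b0) + (a 1 - b1) + (a 2 - b2) = d₂
    omega
  · rw [Fin.prod_univ_three]
    rfl
  · rw [Fin.prod_univ_three]
    obtain ⟨c0, hc0⟩ := Nat.exists_eq_add_of_le h0
    obtain ⟨c1, hc1⟩ := Nat.exists_eq_add_of_le h1
    obtain ⟨c2, hc2⟩ := Nat.exists_eq_add_of_le h2
    rw [hc0, hc1, hc2, Nat.add_sub_cancel_left, Nat.add_sub_cancel_left, Nat.add_sub_cancel_left,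
      pow_add, pow_add, pow_add]
    ring

theorem FS_mul {a b : ℕ} {x y : K} (hx : x ∈ FS O z a) (hy : y ∈ FS O z b) :
    x * y ∈ FS O z (a + b) := by
  have h := Submodule.mul_mem_mul hx hy
  unfold FS at h ⊢
  rw [Submodule.span_mul_span] at h
  refine Submodule.span_mono ?_ h
  rintro _ ⟨u, ⟨p, hp, rfl⟩, v, ⟨q, hq, rfl⟩, rfl⟩
  refine ⟨fun i => p i + q i, ?_, ?_⟩
  · rw [Finset.sum_add_distrib, hp, hq]
  · show (∏ i, z i ^ p i) * (∏ i, z i ^ q i) = _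
    rw [← Finset.prod_mul_distrib]
    exact Finset.prod_congr rfl fun i _ => (pow_add _ _ _).symm

theorem FS_pow {a : ℕ} {x : K} (hx : x ∈ FS O z a) (n : ℕ) : x ^ n ∈ FS O z (a * n) := by
  induction n with
  | zero =>
    rw [pow_zero, mul_zero]
    exact Submodule.subset_span ⟨fun _ => 0, by simp, by simp⟩
  | succ n ih =>
    rw [pow_succ, Nat.mul_succ]
    exact FS_mul ih hx

theorem FS_AF {d : ℕ} {F x : K} (hx : x ∈ FS O z (d + d)) : x / F ^ 2 ∈ AF O z d F := by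
  unfold FS at hx
  induction hx using Submodule.span_induction with
  | mem x hx =>
    obtain ⟨x₁, h1, x₂, h2, rfl⟩ := MN_split hx
    have e : x₁ * x₂ / F ^ 2 = (x₁ / F) * (x₂ / F) := by
      rw [div_mul_div_comm, pow_two]
    rw [e]
    exact (AF O z d F).mul_mem (Algebra.subset_adjoin ⟨x₁, h1, rfl⟩)
      (Algebra.subset_adjoin ⟨x₂, h2, rfl⟩)
  | zero =>
    rw [zero_div]
    exact (AF O z d F).zero_mem
  | add x y _ _ h1 h2 =>
    rw [add_div]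
    exact (AF O z d F).add_mem h1 h2
  | smul c x _ h1 =>
    rw [Algebra.smul_def, mul_div_assoc, ← Algebra.smul_def]
    exact (AF O z d F).smul_mem h1 c

/-- the cube of the first coordinate is a quadratic form -/
theorem cube_FS {Wc : WeierstrassCurve O} (h : EC0 O K z Wc) : z 0 ^ 3 ∈ FS O z 2 := by
  have hm : ∀ (a b c : ℕ), a + b + c = 2 → z 0 ^ a * z 1 ^ b ∈ FS O z 2 := by
    intro a b c habc
    refine Submodule.subset_span ⟨![a, b, c], ?_, ?_⟩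
    · rw [Fin.sum_univ_three]
      exact habc
    · rw [Fin.prod_univ_three]
      show z 0 ^ a * z 1 ^ b = z 0 ^ a * z 1 ^ b * z 2 ^ c
      rw [h.z2, one_pow, mul_one]
  have hs : ∀ (r : O) (x : K), x ∈ FS O z 2 → algebraMap O K r * x ∈ FS O z 2 := by
    intro r x hx
    rw [← Algebra.smul_def]
    exact Submodule.smul_mem _ _ hx
  have e : z 0 ^ 3 = z 0 ^ 0 * z 1 ^ 2 + algebraMap O K Wc.a₁ * (z 0 ^ 1 * z 1 ^ 1) +
      algebraMap O K Wc.a₃ * (z 0 ^ 0 * z 1 ^ 1) + algebraMap O K (-Wc.a₂) * (z 0 ^ 2 * z 1 ^ 0) +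
      algebraMap O K (-Wc.a₄) * (z 0 ^ 1 * z 1 ^ 0) +
      algebraMap O K (-Wc.a₆) * (z 0 ^ 0 * z 1 ^ 0) := by
    rw [map_neg, map_neg, map_neg]
    linear_combination -h.eq
  rw [e]
  refine Submodule.add_mem _ (Submodule.add_mem _ (Submodule.add_mem _ (Submodule.add_mem _
    (Submodule.add_mem _ (hm 0 2 0 rfl) (hs _ _ (hm 1 1 0 rfl))) (hs _ _ (hm 0 1 1 rfl)))
    (hs _ _ (hm 2 0 0 rfl))) (hs _ _ (hm 1 0 1 rfl))) (hs _ _ (hm 0 0 2 rfl))

end forms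

theorem t_ECF : S_RWB → S_ECE → S_ECF := by
  intro hRWB hECE k O K Ω _ _ _ _ _ _ _ _ _ _ hinj τ t 𝔓 hmax hne l hl hπ z Wc B hE d Φ hd hΦ hΦ0
    hτΦ Q hQ hQ0 hv
  by_contra hcon
  push Not at hcon
  obtain ⟨hc0, -, -, hss, -, hpw, -⟩ := hRWB k O K Ω 𝔓 2 two_pos 2 (WE l B) z d Φ
  obtain ⟨R, hR⟩ : ∃ R, R = RW k 𝔓 2 (WE l B) z d Φ := ⟨_, rfl⟩
  subst hR
  have hδ : ∀ b ∈ RW k 𝔓 2 (WE l B) z d Φ, hm ((2 * l : ℕ) : ℤ) 1 * (tl τ b - b) ∈
      im (RW k 𝔓 2 (WE l B) z d Φ) Q := fun b hb =>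
    ⟨hECE k O K Ω τ t 𝔓 l hl z Wc B hE d Φ hτΦ b hb, hcon b hb _⟩
  have hO : ∀ o : O, hm 0 (algebraMap O K o) ∈ RW k 𝔓 2 (WE l B) z d Φ := fun o =>
    hc0 _ ((CG O z d Φ).algebraMap_mem o)
  have hOQ : ∀ e ∈ 𝔓, hm 0 (algebraMap O K e) ∈ im (RW k 𝔓 2 (WE l B) z d Φ) Q := hQ0
  -- the units modulo `𝔓`
  have h0 : ∀ s, s ∉ 𝔓 → hm 0 (algebraMap O K s) ∉ im (RW k 𝔓 2 (WE l B) z d Φ) Q := by
    intro s hs h
    obtain ⟨y, i, hi, hyi⟩ := hmax.exists_inv hs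
    apply im_one hQ
    have e : (1 : LP K) = hm 0 (algebraMap O K y) * hm 0 (algebraMap O K s) +
        hm 0 (algebraMap O K i) := by
      rw [hm_mul, add_zero, ← map_mul, ← hm_add, ← map_add, hyi, map_one, hm_one]
    rw [e]
    exact add_mem (im_mul (hO y) h) (hOQ i hi)
  -- the elements of `𝔓` in degree 2
  have h2R : ∀ e ∈ 𝔓, hm 2 (algebraMap O K e) ∈ RW k 𝔓 2 (WE l B) z d Φ := by
    intro e he
    have h := hpw 1 e (by rwa [pow_one])
    exact h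
  have h2 : ∀ e ∈ 𝔓, hm 2 (algebraMap O K e) ∈ im (RW k 𝔓 2 (WE l B) z d Φ) Q := by
    obtain ⟨π, hπ1, hπ2⟩ := hπ
    have hc1 : t π - π ∈ 𝔓 ^ (l + 1) := hE.dv π
    have hcQ : hm ((2 * (l + 1) : ℕ) : ℤ) (algebraMap O K (t π - π)) ∈
        im (RW k 𝔓 2 (WE l B) z d Φ) Q := by
      have h := hδ _ (h2R π hπ1)
      rw [tl_hm, hE.com, ← hm_sub, ← map_sub, hm_mul, one_mul] at h
      have e : ((2 * l : ℕ) : ℤ) + 2 = ((2 * (l + 1) : ℕ) : ℤ) := by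
        push_cast
        ring
      rwa [e] at h
    have hf : ∀ f ∈ 𝔓 ^ (l + 2), hm ((2 * (l + 1) : ℕ) : ℤ) (algebraMap O K f) ∈
        im (RW k 𝔓 2 (WE l B) z d Φ) Q := by
      intro f hf
      rw [pow_succ'] at hf
      refine Submodule.mul_induction_on hf ?_ ?_
      · intro a ha b hb
        have e : hm ((2 * (l + 1) : ℕ) : ℤ) (algebraMap O K (a * b)) =
            hm ((2 * (l + 1) : ℕ) : ℤ) (algebraMap O K b) * hm 0 (algebraMap O K a) := by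
          rw [hm_mul, add_zero, ← map_mul, mul_comm b a]
        rw [e]
        exact im_mul (hpw _ b hb) (hOQ a ha)
      · intro a b ha hb
        rw [map_add, hm_add]
        exact add_mem ha hb
    intro e he
    by_contra hne2
    apply im_pow hQ (h2R e he) hne2 (l + 1)
    obtain ⟨d', e', he', heq⟩ := Ideal.exists_mul_add_mem_pow_succ hne (t π - π) (e ^ (l + 1))
      hc1 hπ2 (Ideal.pow_mem_pow he _)
    have e1 : hm 2 (algebraMap O K e) ^ (l + 1) =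
        hm 0 (algebraMap O K d') * hm ((2 * (l + 1) : ℕ) : ℤ) (algebraMap O K (t π - π)) +
        hm ((2 * (l + 1) : ℕ) : ℤ) (algebraMap O K e') := by
      rw [hm_mul, zero_add, ← map_mul, ← hm_add, ← map_add, mul_comm d', heq, map_pow, hm_pow]
      congr 1
      push_cast
      ring
    rw [e1]
    exact add_mem (im_mul (hO d') hcQ) (hf e' he')
  have hl2 : ∀ x ∈ 𝔓 ^ l, hm ((2 * l : ℕ) : ℤ) (algebraMap O K x) ∈
      im (RW k 𝔓 2 (WE l B) z d Φ) Q := by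
    obtain ⟨l', rfl⟩ := Nat.exists_eq_add_of_le' hl
    intro x hx
    rw [pow_succ] at hx
    refine Submodule.mul_induction_on hx ?_ ?_
    · intro a ha b hb
      have e : hm ((2 * (l' + 1) : ℕ) : ℤ) (algebraMap O K (a * b)) =
          hm ((2 * l' : ℕ) : ℤ) (algebraMap O K a) * hm 2 (algebraMap O K b) := by
        rw [hm_mul, ← map_mul]
        congr 1
      rw [e]
      exact im_mul (hpw _ a ha) (h2 b hb)
    · intro a b ha hb
      rw [map_add, hm_add]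
      exact add_mem ha hb
  -- the curves in `B`
  have hν : ∀ ω ∈ B, ∀ a b c : ℕ, a + b + c = d →
      hm ((l * a + 3 * l * c : ℕ) : ℤ) (z ω 0 ^ a * z ω 1 ^ b / Φ ω) ∈
        RW k 𝔓 2 (WE l B) z d Φ := by
    intro ω hω a b c habc
    refine Algebra.subset_adjoin (Or.inr ⟨ω, ![a, b, c], ?_, ?_⟩)
    · rw [Fin.sum_univ_three]
      exact habc
    · rw [Fin.sum_univ_three, Fin.prod_univ_three]
      have e1 : WE l B ω = ![l, 0, 3 * l] := if_pos hω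
      rw [e1]
      show _ = hm ((l * a + 0 * b + 3 * l * c : ℕ) : ℤ)
        (z ω 0 ^ a * z ω 1 ^ b * z ω 2 ^ c / Φ ω)
      rw [(hE.ec ω).z2, one_pow, mul_one, zero_mul, add_zero]
  have hB3 : ∀ ω ∈ B, hm ((3 * l * d : ℕ) : ℤ) (1 / Φ ω) ∈ im (RW k 𝔓 2 (WE l B) z d Φ) Q := by
    intro ω hω
    obtain ⟨u, r, s, v, hu1, -, hu, -, hr, -⟩ := hE.tu ω
    obtain ⟨d', rfl⟩ := Nat.exists_eq_add_of_le' hd
    have hb := hν ω hω 1 0 d' (by ring)
    have h := hδ _ hb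
    have h3 := hν ω hω 0 0 (d' + 1) (by ring)
    rw [mul_zero, zero_add, pow_zero, pow_zero, one_mul] at h3
    have hu2 : 1 - u ^ 2 ∈ 𝔓 ^ l := by
      have e : 1 - u ^ 2 = (-(u + 1)) * (u - 1) := by ring
      rw [e]
      exact (𝔓 ^ l).mul_mem_left _ hu
    have hτ0 : τ (z ω 0 ^ 1 * z ω 1 ^ 0 / Φ ω) =
        (algebraMap O K (u ^ 2) * z ω 0 + algebraMap O K r) / Φ ω := by
      rw [pow_one, pow_zero, mul_one, map_div₀, hτΦ, hu1]
    have e1 : hm 0 (algebraMap O K r) * hm ((3 * l * (d' + 1) : ℕ) : ℤ) (1 / Φ ω) =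
        hm ((2 * l : ℕ) : ℤ) 1 * (tl τ (hm ((l * 1 + 3 * l * d' : ℕ) : ℤ)
          (z ω 0 ^ 1 * z ω 1 ^ 0 / Φ ω)) - hm ((l * 1 + 3 * l * d' : ℕ) : ℤ)
          (z ω 0 ^ 1 * z ω 1 ^ 0 / Φ ω)) +
        hm ((l * 1 + 3 * l * d' : ℕ) : ℤ) (z ω 0 ^ 1 * z ω 1 ^ 0 / Φ ω) *
          hm ((2 * l : ℕ) : ℤ) (algebraMap O K (1 - u ^ 2)) := by
      rw [tl_hm, hτ0, ← hm_sub, hm_mul, hm_mul, hm_mul]
      have e2 : ((2 * l : ℕ) : ℤ) + ((l * 1 + 3 * l * d' : ℕ) : ℤ) =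
          ((3 * l * (d' + 1) : ℕ) : ℤ) := by
        push_cast
        ring
      have e3 : ((l * 1 + 3 * l * d' : ℕ) : ℤ) + ((2 * l : ℕ) : ℤ) =
          ((3 * l * (d' + 1) : ℕ) : ℤ) := by
        push_cast
        ring
      rw [e2, e3, zero_add, ← hm_add]
      congr 1
      rw [map_sub, map_one, pow_one, pow_zero, mul_one]
      ring
    have h4 : hm 0 (algebraMap O K r) * hm ((3 * l * (d' + 1) : ℕ) : ℤ) (1 / Φ ω) ∈
        im (RW k 𝔓 2 (WE l B) z (d' + 1) Φ) Q := by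
      rw [e1]
      exact add_mem h (im_mul hb (hl2 _ hu2))
    exact (im_prime hQ (hO r) h3 h4).resolve_left (h0 r (hr hω))
  have hB1 : ∀ ω ∈ B, hm ((l * d : ℕ) : ℤ) (z ω 0 ^ d / Φ ω) ∈
      im (RW k 𝔓 2 (WE l B) z d Φ) Q := by
    intro ω hω
    have h1 := hν ω hω d 0 0 (by ring)
    rw [mul_zero, add_zero, pow_zero, mul_one] at h1
    by_contra hne2
    apply im_pow hQ h1 hne2 3
    have h3 : z ω 0 ^ (3 * d) / Φ ω ^ 2 ∈ CG O z d Φ := by
      have h4 := FS_pow (cube_FS (hE.ec ω)) d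
      rw [← pow_mul, two_mul] at h4
      exact le_iSup (fun ω => AF O (z ω) d (Φ ω)) ω (FS_AF h4)
    have e1 : hm ((l * d : ℕ) : ℤ) (z ω 0 ^ d / Φ ω) ^ 3 =
        hm 0 (z ω 0 ^ (3 * d) / Φ ω ^ 2) * hm ((3 * l * d : ℕ) : ℤ) (1 / Φ ω) := by
      rw [hm_pow, hm_mul]
      have e2 : ((3 : ℕ) : ℤ) * ((l * d : ℕ) : ℤ) = 0 + ((3 * l * d : ℕ) : ℤ) := by
        push_cast
        ring
      rw [e2]
      congr 1
      rw [div_pow, ← pow_mul, mul_comm d 3, div_mul_div_comm, mul_one]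
      congr 1
      ring
    rw [e1]
    exact im_mul (hc0 _ h3) (hB3 ω hω)
  have hBa : ∀ ω ∈ B, ∀ a b c : ℕ, a + b + c = d → 0 < l * a + 3 * l * c →
      hm ((l * a + 3 * l * c : ℕ) : ℤ) (z ω 0 ^ a * z ω 1 ^ b / Φ ω) ∈
        im (RW k 𝔓 2 (WE l B) z d Φ) Q := by
    intro ω hω a b c habc hac
    by_contra hne2
    apply im_pow hQ (hν ω hω a b c habc) hne2 d
    have h1 := hB1 ω hω
    have h3 := hB3 ω hω
    have h5 := hν ω hω 0 d 0 (by ring)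
    rw [mul_zero, mul_zero, add_zero, pow_zero, one_mul] at h5
    have e1 : hm ((l * a + 3 * l * c : ℕ) : ℤ) (z ω 0 ^ a * z ω 1 ^ b / Φ ω) ^ d =
        hm ((0 : ℕ) : ℤ) (z ω 1 ^ d / Φ ω) ^ b * (hm ((l * d : ℕ) : ℤ) (z ω 0 ^ d / Φ ω) ^ a *
          hm ((3 * l * d : ℕ) : ℤ) (1 / Φ ω) ^ c) := by
      rw [hm_pow, hm_pow, hm_pow, hm_pow, hm_mul, hm_mul]
      have e2 : (d : ℤ) * ((l * a + 3 * l * c : ℕ) : ℤ) = (b : ℤ) * ((0 : ℕ) : ℤ) +
          ((a : ℤ) * ((l * d : ℕ) : ℤ) + (c : ℤ) * ((3 * l * d : ℕ) : ℤ)) := by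
        push_cast
        ring
      rw [e2]
      congr 1
      rw [div_pow, div_pow, div_pow, div_pow, div_mul_div_comm, div_mul_div_comm]
      congr 1
      · rw [mul_pow, one_pow, ← pow_mul, ← pow_mul, ← pow_mul, ← pow_mul]
        ring
      · rw [← pow_add, ← pow_add]
        congr 1
        omega
    rw [e1]
    refine im_mul (Subalgebra.pow_mem _ h5 b) ?_
    rcases Nat.eq_zero_or_pos a with ha | ha
    · have hc : 0 < c := by
        rcases Nat.eq_zero_or_pos c with hc | hc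
        · rw [ha, hc, mul_zero, mul_zero] at hac
          exact absurd hac (lt_irrefl _)
        · exact hc
      obtain ⟨c', rfl⟩ := Nat.exists_eq_add_of_le' hc
      rw [pow_succ, ← mul_assoc]
      exact im_mul (Subalgebra.mul_mem _ (Subalgebra.pow_mem _ h1.1 _)
        (Subalgebra.pow_mem _ h3.1 _)) h3
    · obtain ⟨a', rfl⟩ := Nat.exists_eq_add_of_le' ha
      rw [pow_succ, mul_comm, ← mul_assoc]
      exact im_mul (Subalgebra.mul_mem _ (Subalgebra.pow_mem _ h3.1 _)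
        (Subalgebra.pow_mem _ h1.1 _)) h1
  -- all elements of positive degree
  obtain ⟨e, η, he, he0, heQ⟩ := hv
  apply heQ
  have h3 := pos_gen (k := k) _ (RW k 𝔓 2 (WE l B) z d Φ) rfl Q (fun s hs => ?_) (hm e η) he e
    (by exact_mod_cast he0)
  · rw [coeff_hm_same] at h3
    exact h3.2
  · rcases hs with ((hs | ⟨a, ha, rfl⟩) | ⟨o, rfl⟩) | ⟨ω, a, ha, rfl⟩
    · exact ⟨-1, 1, hs, fun h => absurd h (by norm_num)⟩
    · exact ⟨_, _, rfl, fun _ => h2 a ha⟩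
    · exact ⟨0, _, rfl, fun h => absurd h (lt_irrefl _)⟩
    · refine ⟨_, _, rfl, fun hpos => ?_⟩
      by_cases hω : ω ∈ B
      · have e1 : WE l B ω = ![l, 0, 3 * l] := if_pos hω
        rw [Fin.sum_univ_three] at ha
        have e2 : ∑ j, WE l B ω j * a j = l * a 0 + 3 * l * a 2 := by
          rw [Fin.sum_univ_three, e1]
          show l * a 0 + 0 * a 1 + 3 * l * a 2 = _
          rw [zero_mul, add_zero]
        have e3 : ∏ j, z ω j ^ a j = z ω 0 ^ a 0 * z ω 1 ^ a 1 := by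
          rw [Fin.prod_univ_three]
          have e4 : z ω 2 = 1 := (hE.ec ω).z2
          rw [e4, one_pow, mul_one]
        rw [e2] at hpos ⊢
        rw [e3]
        exact hBa ω hω (a 0) (a 1) (a 2) ha (by exact_mod_cast hpos)
      · exfalso
        have e1 : WE l B ω = 0 := if_neg hω
        rw [e1] at hpos
        simp at hpos

end Pool.Agent.Y363.H
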