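import Pool.Agent.Y223.G.Stm11
import Pool.Agent.Y872.H.Rein

/-!
# The inertia groups outside the vertex: general graded algebras at the wild primes
(after `Pool.Agent.Y872.H.Rein`)
-/

set_option autoImplicit false

namespace Pool.Agent.Y363.H

open Pool.Agent.Y223.G
open Pool.Agent.Y872.H
open Pool.Agent.Y86.G5 (im im_sub im_mul im_prime im_one im_pow up mem_up up_prime up_inter hmh
  hmh_apply exists_avoid)

theorem mem_RX {k O K N : Type} [CommRing k] [CommRing O] [Field K] [Algebra O K]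
    [Algebra k K] {C : Subalgebra O K} {W : N → Subalgebra k (LP K)} {f : LP K} :
    f ∈ RX k C W ↔ f ∈ RR k 1 1 ⊤ 0 C ∧ ∀ i, f ∈ W i := by
  unfold RX
  rw [Algebra.mem_inf, Algebra.mem_iInf]

/-- a multiple is in the algebra at a prime -/
theorem mult {k O K : Type} [CommRing k] [CommRing O] [Field K] [Algebra O K]
    [Algebra k K] {C : Subalgebra O K} {W : Subalgebra k (LP K)} (hss : hm (-1) 1 ∈ W)
    (hc0 : ∀ c ∈ C, hm 0 c ∈ W) {s : K} (hs : hm 1 s ∈ W) {f : LP K}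
    (hf : ∀ d, f.coeff d ∈ C) {D : ℕ} (hD : ∀ d ∈ f.coeff.support, d ≤ (D : ℤ)) :
    hm 0 s ^ D * f ∈ W := by
  rw [eq_sum_hm f, Finset.mul_sum]
  refine W.sum_mem fun d hd => ?_
  have hc := hc0 _ (hf d)
  have h1 := hD d hd
  have h2 := W.mul_mem (W.mul_mem (W.pow_mem hs D) hc) (W.pow_mem hss ((D : ℤ) - d).toNat)
  have h3 : (hm 1 s ^ D * hm 0 (f.coeff d)) * hm (-1) 1 ^ ((D : ℤ) - d).toNat =
      hm 0 s ^ D * hm d (f.coeff d) := by
    have e1 : ((D : ℤ) * 1 + 0) + (((D : ℤ) - d).toNat : ℤ) * -1 = (D : ℤ) * 0 + d := by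
      rw [Int.toNat_of_nonneg (by omega)]
      ring
    rw [hm_pow, hm_pow, hm_pow, hm_mul, hm_mul, hm_mul, one_pow, mul_one (s ^ D * f.coeff d), e1]
  rw [h3] at h2
  exact h2

theorem t_REINW : S_REINW := by
  intro k O K K₂ G _ _ _ _ _ _ _ _ _ _ _ _ _ ε hε ρ ρ₂ hρ T N _ 𝔔 p l τ π hL C W hC R hR Q
    hQ hv
  classical
  have hp : ∀ i, 0 < p i := fun i => (hL.ty i).1.pp.pos
  obtain ⟨R1, hR1⟩ : ∃ R1, R1 = RX k C W := ⟨_, rfl⟩
  rw [← hR1] at hR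
  obtain ⟨ϖ, hϖ⟩ : ∃ ϖ, ϖ = algebraMap O K π := ⟨_, rfl⟩
  rw [← hϖ] at hR
  have hϖ0 : ϖ ≠ 0 := by
    rw [hϖ]
    exact (map_ne_zero_iff _ hL.inj).2 hL.p0
  have hGr : Gr R1 := by
    intro f hf d
    rw [hR1, mem_RX] at hf ⊢
    exact ⟨RR_gr f hf.1 d, fun i => hC.gr i f (hf.2 i) d⟩
  have hjR : ∀ f ∈ R1, jj ε f ∈ R := by
    intro f hf
    rw [hR]
    exact jj_R2 ε hGr ϖ hf
  have hO1 : ∀ o : O, hm 0 (algebraMap O K o) ∈ R1 := by
    intro o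
    rw [hR1, mem_RX]
    exact ⟨RR_c one_pos (C.algebraMap_mem o), fun i => hC.c0 i _ (C.algebraMap_mem o)⟩
  obtain ⟨v, hvd⟩ : ∃ v : LP K₂, v = hm 0 (ε (hm 1 ϖ)) := ⟨_, rfl⟩
  obtain ⟨v', hvd'⟩ : ∃ v' : LP K₂, v' = hm 0 (ε (hm (-1) ϖ⁻¹)) := ⟨_, rfl⟩
  have hvR : v ∈ R := by
    rw [hR, hvd]
    exact v_R2 ε R1 ϖ
  have hvR' : v' ∈ R := by
    rw [hR, hvd']
    exact v'_R2 ε R1 ϖ
  have hvv : v' * v = 1 := by
    rw [hvd, hvd']
    exact v_mul ε hϖ0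
  -- the units
  have hun : ∀ g, ∃ w w' : O, T g π = w * π ∧ w' * w = 1 := by
    intro g
    obtain ⟨w, hw⟩ := hL.wi g
    obtain ⟨w2, hw2⟩ := hL.wi g⁻¹
    refine ⟨w, T g w2, hw, ?_⟩
    have h1 : T g (T g⁻¹ π) = π := by
      have h2 : (T g * T g⁻¹) π = π := by
        rw [← map_mul, mul_inv_cancel, map_one]
        rfl
      exact h2
    rw [hw2, map_mul, hw] at h1
    have h3 : (T g w2 * w - 1) * π = 0 := by
      linear_combination h1
    rcases mul_eq_zero.1 h3 with h4 | h4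
    · exact sub_eq_zero.1 h4
    · exact absurd h4 hL.p0
  have htj : ∀ g (d : ℤ) (o : O), tl (ρ₂ g) (jj ε (hm d (algebraMap O K o))) -
      jj ε (hm d (algebraMap O K o)) = jj ε (hm d (algebraMap O K (T g o - o))) := by
    intro g d o
    rw [tl_jj (hρ g), tl_hm, hL.com, ← map_sub, ← hm_sub, ← map_sub]
  have htv : ∀ g (w : O), T g π = w * π →
      tl (ρ₂ g) v = jj ε (hm 0 (algebraMap O K w)) * v := by
    intro g w hw
    rw [hvd, tl_hm, hρ, tl_hm, jj_hm, hm_mul, ← map_mul, hm_mul, hϖ, hL.com, hw, map_mul,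
      add_zero, zero_add]
  have htv' : ∀ g (w w' : O), T g π = w * π → w' * w = 1 →
      tl (ρ₂ g) v' = jj ε (hm 0 (algebraMap O K w')) * v' := by
    intro g w w' hw hww
    have h1 : tl (ρ₂ g) v' * tl (ρ₂ g) v = 1 := by
      rw [← map_mul, hvv, map_one]
    rw [htv g w hw] at h1
    have h2 : jj ε (hm 0 (algebraMap O K w')) * jj ε (hm 0 (algebraMap O K w)) = 1 := by
      rw [← map_mul, hm_mul, ← map_mul, hww, map_one, add_zero, hm_one, map_one]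
    calc tl (ρ₂ g) v' = tl (ρ₂ g) v' * (jj ε (hm 0 (algebraMap O K w')) *
          jj ε (hm 0 (algebraMap O K w))) * (v' * v) := by rw [h2, hvv, mul_one, mul_one]
      _ = (jj ε (hm 0 (algebraMap O K w')) * v') * (tl (ρ₂ g) v' *
          (jj ε (hm 0 (algebraMap O K w)) * v)) := by ring
      _ = _ := by rw [h1, mul_one]
  -- the prime ideal of the base
  let φ : O →+* R := ((((jj ε).comp (zer k K) : K →ₐ[k] LP K₂) : K →+* LP K₂).comp
    (algebraMap O K)).codRestrict R (fun o => hjR _ (hO1 o))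
  have hφ : ∀ o, o ∈ Q.comap φ ↔ jj ε (hm 0 (algebraMap O K o)) ∈ im R Q :=
    fun o => ⟨fun h => ⟨hjR _ (hO1 o), h⟩, fun h => h.2⟩
  have hqp : (Q.comap φ).IsPrime := Ideal.comap_isPrime φ Q
  have hin : ∀ g, (∀ f ∈ R, ∃ h : tl (ρ₂ g) f - f ∈ R, (⟨tl (ρ₂ g) f - f, h⟩ : R) ∈ Q) →
      ∀ o, T g o - o ∈ Q.comap φ := by
    intro g hg o
    rw [hφ, ← htj]
    exact hg _ (hjR _ (hO1 o))
  have hin2 : ∀ g, (∀ f ∈ R, ∃ h : tl (ρ₂ g) f - f ∈ R, (⟨tl (ρ₂ g) f - f, h⟩ : R) ∈ Q) →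
      ∀ w, T g π = w * π → w - 1 ∈ Q.comap φ := by
    intro g hg w hw
    rw [hφ]
    have h1 : tl (ρ₂ g) v - v ∈ im R Q := hg v hvR
    have h2 : jj ε (hm 0 (algebraMap O K (w - 1))) = v' * (tl (ρ₂ g) v - v) := by
      rw [htv g w hw, map_sub, map_one, hm_sub, map_sub, hm_one, map_one]
      linear_combination (1 - jj ε (hm 0 (algebraMap O K w))) * hvv
    rw [h2]
    exact im_mul hvR' h1
  by_cases hi : ∀ i, Q.comap φ ≠ 𝔔 i
  · left
    intro g hg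
    exact hL.al _ hqp hi g (hin g hg) (hin2 g hg)
  push Not at hi
  obtain ⟨i, hi⟩ := hi
  have hmi := hL.mx i
  have hQi : ∀ o, o ∈ 𝔔 i ↔ jj ε (hm 0 (algebraMap O K o)) ∈ im R Q := by
    intro o
    rw [← hi]
    exact hφ o
  rw [hi] at hin hin2
  obtain ⟨hw, hτ, hz⟩ := hL.ty i
  right
  refine ⟨p i, τ i, hw.pp, hτ, fun g hg => hz g (hin g hg) (hin2 g hg), ?_⟩
  -- the graded algebra at the prime
  obtain ⟨R', hR'⟩ : ∃ R', R' = W i := ⟨_, rfl⟩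
  have hle : R1 ≤ R' := by
    intro f hf
    rw [hR1] at hf
    rw [hR']
    exact (mem_RX.1 hf).2 i
  have hglu : ∀ s : O, (∀ j, j ≠ i → s ∈ 𝔔 j) → ∀ f ∈ R',
      ∃ n : ℕ, hm 0 (algebraMap O K s) ^ n * f ∈ R1 := by
    intro s hs f hf
    rw [hR'] at hf
    have hfc : ∀ d, f.coeff d ∈ C := fun d => hC.d0 i d _ (hC.gr i f hf d)
    have hf1 : f ∈ RR k (1 : K ≃ₐ[k] K) 1 (⊤ : Ideal O) 0 C :=
      mem_of_comp _ fun d => Pool.Agent.Y363.G.one_hm (hfc d) d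
    obtain ⟨D, hD⟩ := Pool.Agent.Y363.G.exists_deg f
    refine ⟨D, ?_⟩
    rw [hR1, mem_RX]
    refine ⟨Subalgebra.mul_mem _ (Subalgebra.pow_mem _ (Pool.Agent.Y363.G.hm_alg one_pos s) _)
      hf1, fun j => ?_⟩
    by_cases hj : j = i
    · subst hj
      exact Subalgebra.mul_mem _ (Subalgebra.pow_mem _ (hC.c0 j _ (C.algebraMap_mem s)) _) hf
    · exact mult (hC.ss j) (hC.c0 j) (hC.up j s (hs j hj)) hfc hD
  -- an invariant element of the other ideals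
  obtain ⟨s0, hs0, hs0'⟩ := exists_avoid 𝔔 hL.mx hL.dj i
  have hit : ∀ (n : ℕ) (x : O), (T (τ i))^[n] x = T (τ i ^ n) x := by
    intro n
    induction n with
    | zero =>
      intro x
      rw [pow_zero, map_one]
      rfl
    | succ n ih =>
      intro x
      rw [Function.iterate_succ_apply, ih, pow_succ, map_mul]
      rfl
  set s1 : O := ∏ a ∈ Finset.range (p i), (T (τ i))^[a] s0 with hs1
  have hs1T : T (τ i) s1 = s1 := by
    rw [hs1, map_prod]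
    have h1 : ∀ a ∈ Finset.range (p i), T (τ i) ((T (τ i))^[a] s0) =
        (T (τ i))^[a + 1] s0 := fun a _ => by rw [Function.iterate_succ_apply']
    rw [Finset.prod_congr rfl h1]
    refine Pool.Agent.Y86.G5.prod_orbit (fun a => (T (τ i))^[a] s0) (hp i) ?_
    show (T (τ i))^[p i] s0 = (T (τ i))^[0] s0
    rw [hit, hit, hτ, pow_zero]
  have hs1i : s1 ∉ 𝔔 i := by
    intro h
    have := hmi.isPrime
    obtain ⟨a, -, ha⟩ := (Ideal.IsPrime.prod_mem_iff).1 h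
    have h1 : ∀ a : ℕ, (T (τ i))^[a] s0 ∉ 𝔔 i := by
      intro a
      induction a with
      | zero => exact hs0'
      | succ a ih =>
        intro h
        apply ih
        rw [Function.iterate_succ_apply'] at h
        have h2 : T (τ i) ((T (τ i))^[a] s0) - (T (τ i))^[a] s0 ∈ 𝔔 i :=
          Ideal.pow_le_self (Nat.succ_ne_zero _) (hw.dv _)
        have h3 := (𝔔 i).sub_mem h h2
        rwa [sub_sub_cancel] at h3
    exact h1 a ha
  have hs1j : ∀ j, j ≠ i → s1 ∈ 𝔔 j := by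
    intro j hj
    have h1 : (T (τ i))^[0] s0 ∣ s1 :=
      Finset.dvd_prod_of_mem (fun a => (T (τ i))^[a] s0) (Finset.mem_range.2 (hp i))
    exact (𝔔 j).mem_of_dvd h1 (hs0 j hj)
  obtain ⟨S1, hS1⟩ : ∃ S1 : LP K, S1 = hm 0 (algebraMap O K s1) := ⟨_, rfl⟩
  have hS1R : S1 ∈ R1 := by
    rw [hS1]
    exact hO1 s1
  have hgl1 : ∀ f ∈ R', ∃ n : ℕ, S1 ^ n * f ∈ R1 := by
    rw [hS1]
    exact hglu s1 hs1j
  have hS1T : tl (ρ₂ (τ i)) (jj ε S1) = jj ε S1 := by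
    rw [hS1, ← sub_eq_zero, htj, hs1T, sub_self, map_zero, hm_zero, map_zero]
  have hJR : jj ε S1 ∈ R := hjR _ hS1R
  -- the prime ideals
  let ψ : R1 →+* R := ((jj ε : LP K →+* LP K₂).comp R1.val.toRingHom).codRestrict R
    (fun f => hjR _ f.2)
  have hψ : ∀ f, f ∈ im R1 (Q.comap ψ) ↔ f ∈ R1 ∧ jj ε f ∈ im R Q :=
    fun f => ⟨fun h => ⟨h.1, hjR _ h.1, h.2⟩, fun h => ⟨h.1, h.2.2⟩⟩
  have hQ1 : (Q.comap ψ).IsPrime := Ideal.comap_isPrime ψ Q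
  have hS1Q : S1 ∉ im R1 (Q.comap ψ) := by
    rw [hψ, hS1]
    exact fun h => hs1i ((hQi s1).2 h.2)
  obtain ⟨Q', hQ'⟩ : ∃ Q', Q' = up R1 R' (Q.comap ψ) S1 hS1R hgl1 := ⟨_, rfl⟩
  have hQ'p : Q'.IsPrime := by
    rw [hQ']
    exact up_prime hQ1 _ _ hS1Q
  have hinter : ∀ f ∈ R1, f ∈ im R' Q' ↔ f ∈ im R1 (Q.comap ψ) := by
    intro f hf
    rw [hQ']
    exact up_inter hQ1 hS1Q hle hf
  have h1 : ∀ e ∈ 𝔔 i, ∃ h : hm 0 (algebraMap O K e) ∈ R', (⟨_, h⟩ : R') ∈ Q' := by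
    intro e he
    have h2 : hm 0 (algebraMap O K e) ∈ im R' Q' :=
      (hinter _ (hO1 e)).2 ((hψ _).2 ⟨hO1 e, (hQi e).1 he⟩)
    exact h2
  have h2 : ∃ (e : ℕ) (η : K) (he : hm e η ∈ R'), 0 < e ∧ (⟨hm e η, he⟩ : R') ∉ Q' := by
    by_contra hcon
    push Not at hcon
    obtain ⟨e, η, he, he0, heQ⟩ := hv
    apply heQ
    have h3 := pos_gen (k := k) _ R hR Q (fun s hs => ?_) (hm e η) he e (by exact_mod_cast he0)
    · rw [coeff_hm_same] at h3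
      exact h3.2
    · rcases hs with ⟨d, a, had, rfl⟩ | hs
      · refine ⟨d, _, rfl, fun hd => ?_⟩
        obtain ⟨d', rfl⟩ := Int.eq_ofNat_of_zero_le hd.le
        have h4 := hcon d' a (hle had) (by exact_mod_cast hd)
        have h5 : hm (d' : ℤ) a ∈ im R' Q' := ⟨hle had, h4⟩
        have h6 := ((hψ _).1 ((hinter _ had).1 h5)).2
        rwa [jj_hm] at h6
      · rcases hs with rfl | hs
        · exact ⟨0, _, rfl, fun h => absurd h (lt_irrefl _)⟩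
        · rw [Set.mem_singleton_iff] at hs
          exact ⟨0, _, hs, fun h => absurd h (lt_irrefl _)⟩
  obtain ⟨D, hD0, hD1, hD2, hD3⟩ := hC.dl i
  have hst : ∀ f ∈ R', tl (ρ (τ i)) f ∈ R' ∧ hm (D : ℤ) 1 * (tl (ρ (τ i)) f - f) ∈ R' := by
    intro f hf
    rw [hR'] at hf ⊢
    have h3 := hD1 f hf
    refine ⟨?_, h3⟩
    have h4 : hm (-1) 1 ^ D * (hm (D : ℤ) 1 * (tl (ρ (τ i)) f - f)) = tl (ρ (τ i)) f - f := by
      rw [← mul_assoc, hm_pow, hm_mul, one_pow, one_mul]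
      have e : (D : ℤ) * -1 + (D : ℤ) = 0 := by ring
      rw [e, hm_one, one_mul]
    have h5 := (W i).mul_mem ((W i).pow_mem (hC.ss i) D) h3
    rw [h4] at h5
    have h6 := (W i).add_mem h5 hf
    rwa [sub_add_cancel] at h6
  have hb : ∃ b ∈ R', ∃ h : hm (D : ℤ) 1 * (tl (ρ (τ i)) b - b) ∈ R',
      (⟨_, h⟩ : R') ∉ Q' := by
    clear hQ' hinter
    subst hR'
    exact hD3 Q' hQ'p h1 h2
  obtain ⟨b, hb, hbm, hbQ⟩ := hb
  have hl1 : jj ε (hm (D : ℤ) 1) = hm (D : ℤ) 1 := by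
    rw [jj_hm, hm_one, map_one]
  -- the element outside the prime ideal
  obtain ⟨m, hm1⟩ := hgl1 _ hbm
  have hm2 : S1 ^ m * (hm (D : ℤ) 1 * (tl (ρ (τ i)) b - b)) ∉ im R1 (Q.comap ψ) := by
    intro h
    apply hbQ
    have h3 : hm (D : ℤ) 1 * (tl (ρ (τ i)) b - b) ∈ im R' Q' := by
      rw [hQ', mem_up]
      exact ⟨hbm, m, h⟩
    exact h3.2
  have hm3 : jj ε (S1 ^ m * (hm (D : ℤ) 1 * (tl (ρ (τ i)) b - b))) =
      jj ε S1 ^ m * (hm (D : ℤ) 1 * (tl (ρ₂ (τ i)) (jj ε b) - jj ε b)) := by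
    rw [map_mul, map_pow, map_mul, map_sub, hl1, tl_jj (hρ _)]
  have hm4 : jj ε S1 ^ m * (hm (D : ℤ) 1 * (tl (ρ₂ (τ i)) (jj ε b) - jj ε b)) ∈ R := by
    rw [← hm3]
    exact hjR _ hm1
  have hm5 : jj ε S1 ^ m * (hm (D : ℤ) 1 * (tl (ρ₂ (τ i)) (jj ε b) - jj ε b)) ∉ im R Q := by
    rw [← hm3]
    exact fun h => hm2 ((hψ _).2 ⟨hm1, h⟩)
  have hJQ : jj ε S1 ∉ im R Q := fun h => hS1Q ((hψ _).2 ⟨hS1R, h⟩)
  -- the other elements
  have hunit : ∀ (u : LP K₂) (y : O), u ∈ R → hm (D : ℤ) (algebraMap O K (y - 1)) ∈ R' →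
      tl (ρ₂ (τ i)) u = jj ε (hm 0 (algebraMap O K y)) * u →
      ∃ n : ℕ, jj ε S1 ^ n * (hm (D : ℤ) 1 * (tl (ρ₂ (τ i)) u - u)) ∈ R ∧
        jj ε S1 ^ n * tl (ρ₂ (τ i)) u ∈ R := by
    intro u y hu hy htu
    obtain ⟨n, hn⟩ := hgl1 _ hy
    refine ⟨n, ?_, ?_⟩
    · have h3 : jj ε S1 ^ n * (hm (D : ℤ) 1 * (tl (ρ₂ (τ i)) u - u)) =
          jj ε (S1 ^ n * hm (D : ℤ) (algebraMap O K (y - 1))) * u := by
        have h4 : (hm (D : ℤ) (algebraMap O K (y - 1)) : LP K) =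
            hm (D : ℤ) 1 * (hm 0 (algebraMap O K y) - 1) := by
          rw [← hm_one, ← hm_sub, hm_mul, one_mul, add_zero, map_sub, map_one]
        rw [h4, map_mul, map_pow, map_mul, map_sub, map_one, hl1, htu]
        ring
      rw [h3]
      exact R.mul_mem (hjR _ hn) hu
    · rw [htu]
      exact R.mul_mem (R.pow_mem hJR n) (R.mul_mem (hjR _ (hO1 y)) hu)
  obtain ⟨w, w', hw1, hw2⟩ := hun (τ i)
  have hwl : hm (D : ℤ) (algebraMap O K (w - 1)) ∈ R' := by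
    rw [hR']
    exact hD2 w hw1
  have hwl' : hm (D : ℤ) (algebraMap O K (w' - 1)) ∈ R' := by
    have h3 : hm (D : ℤ) (algebraMap O K (w' - 1)) =
        hm 0 (algebraMap O K (-w')) * hm (D : ℤ) (algebraMap O K (w - 1)) := by
      rw [hm_mul, zero_add, ← map_mul]
      congr 2
      linear_combination hw2
    rw [h3]
    exact R'.mul_mem (hle (hO1 _)) hwl
  have hc : ∀ c ∈ R2 ε R1 ϖ, ∃ n : ℕ, jj ε S1 ^ n * (hm (D : ℤ) 1 * (tl (ρ₂ (τ i)) c - c)) ∈ R ∧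
      jj ε S1 ^ n * tl (ρ₂ (τ i)) c ∈ R := by
    intro c hc
    have hRR : ∀ x, x ∈ R2 ε R1 ϖ → x ∈ R := by
      intro x hx
      rw [hR]
      exact hx
    unfold R2 at hc hRR
    induction hc using Algebra.adjoin_induction with
    | mem x hx =>
      rcases hx with ⟨d, a, had, rfl⟩ | hx
      · rw [← jj_hm]
        obtain ⟨h3, h4⟩ := hst _ (hle had)
        obtain ⟨n3, h3⟩ := hgl1 _ h3
        obtain ⟨n4, h4⟩ := hgl1 _ h4
        have e3 := hjR _ h3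
        have e4 := hjR _ h4
        rw [map_mul, map_pow, ← tl_jj (hρ _)] at e3
        rw [map_mul, map_pow, map_mul, map_sub, hl1, ← tl_jj (hρ _)] at e4
        refine ⟨n3 + n4, ?_, ?_⟩
        · rw [pow_add, mul_assoc]
          exact R.mul_mem (R.pow_mem hJR _) e4
        · rw [pow_add, mul_comm (jj ε S1 ^ n3), mul_assoc]
          exact R.mul_mem (R.pow_mem hJR _) e3
      · rcases hx with hx | hx
        · have hx' : x = v := by rw [hvd]; exact hx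
          rw [hx']
          exact hunit v w hvR hwl (htv _ w hw1)
        · rw [Set.mem_singleton_iff] at hx
          have hx' : x = v' := by rw [hvd']; exact hx
          rw [hx']
          exact hunit v' w' hvR' hwl' (htv' _ w w' hw1 hw2)
    | algebraMap r =>
      refine ⟨0, ?_, ?_⟩
      · rw [AlgEquiv.commutes, sub_self, mul_zero, mul_zero]
        exact R.zero_mem
      · rw [AlgEquiv.commutes, pow_zero, one_mul]
        exact R.algebraMap_mem r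
    | add x y _ _ hx hy =>
      obtain ⟨n, h3, h4⟩ := hx
      obtain ⟨n', h5, h6⟩ := hy
      refine ⟨n + n', ?_, ?_⟩
      · have e : jj ε S1 ^ (n + n') * (hm (D : ℤ) 1 * (tl (ρ₂ (τ i)) (x + y) - (x + y))) =
            jj ε S1 ^ n' * (jj ε S1 ^ n * (hm (D : ℤ) 1 * (tl (ρ₂ (τ i)) x - x))) +
            jj ε S1 ^ n * (jj ε S1 ^ n' * (hm (D : ℤ) 1 * (tl (ρ₂ (τ i)) y - y))) := by
          rw [map_add]
          ring
        rw [e]
        exact R.add_mem (R.mul_mem (R.pow_mem hJR _) h3) (R.mul_mem (R.pow_mem hJR _) h5)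
      · have e : jj ε S1 ^ (n + n') * tl (ρ₂ (τ i)) (x + y) =
            jj ε S1 ^ n' * (jj ε S1 ^ n * tl (ρ₂ (τ i)) x) +
            jj ε S1 ^ n * (jj ε S1 ^ n' * tl (ρ₂ (τ i)) y) := by
          rw [map_add]
          ring
        rw [e]
        exact R.add_mem (R.mul_mem (R.pow_mem hJR _) h4) (R.mul_mem (R.pow_mem hJR _) h6)
    | mul x y hx0 hy0 hx hy =>
      obtain ⟨n, h3, h4⟩ := hx
      obtain ⟨n', h5, h6⟩ := hy
      refine ⟨n + n', ?_, ?_⟩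
      · have e : jj ε S1 ^ (n + n') * (hm (D : ℤ) 1 * (tl (ρ₂ (τ i)) (x * y) - (x * y))) =
            (jj ε S1 ^ n * (hm (D : ℤ) 1 * (tl (ρ₂ (τ i)) x - x))) *
              (jj ε S1 ^ n' * tl (ρ₂ (τ i)) y) +
            x * (jj ε S1 ^ n * (jj ε S1 ^ n' * (hm (D : ℤ) 1 * (tl (ρ₂ (τ i)) y - y)))) := by
          rw [map_mul]
          ring
        rw [e]
        exact R.add_mem (R.mul_mem h3 h6)
          (R.mul_mem (hRR x hx0) (R.mul_mem (R.pow_mem hJR _) h5))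
      · have e : jj ε S1 ^ (n + n') * tl (ρ₂ (τ i)) (x * y) =
            (jj ε S1 ^ n * tl (ρ₂ (τ i)) x) * (jj ε S1 ^ n' * tl (ρ₂ (τ i)) y) := by
          rw [map_mul]
          ring
        rw [e]
        exact R.mul_mem h4 h6
  obtain ⟨n, hn⟩ := hgl1 b hb
  have hn' := hjR _ hn
  rw [map_mul, map_pow] at hn'
  refine ⟨jj ε S1 ^ n * jj ε b, hn', fun c hcR => ?_⟩
  obtain ⟨m', hm', -⟩ := hc c (by rw [← hR]; exact hcR)
  have hs2 : jj ε S1 ^ (n + m') * (jj ε S1 ^ m *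
      (hm (D : ℤ) 1 * (tl (ρ₂ (τ i)) (jj ε b) - jj ε b))) ∈ R :=
    R.mul_mem (R.pow_mem hJR _) hm4
  refine ⟨_, hs2, ?_, jj ε S1 ^ m * (jj ε S1 ^ m' * (hm (D : ℤ) 1 * (tl (ρ₂ (τ i)) c - c))),
    R.mul_mem (R.pow_mem hJR _) hm', ?_⟩
  · intro h
    have h3 : jj ε S1 ^ (n + m') * (jj ε S1 ^ m *
      (hm (D : ℤ) 1 * (tl (ρ₂ (τ i)) (jj ε b) - jj ε b))) ∈ im R Q := ⟨hs2, h⟩
    rcases im_prime hQ (R.pow_mem hJR _) hm4 h3 with h4 | h4
    · exact im_pow hQ hJR hJQ _ h4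
    · exact hm5 h4
  · have h3 : tl (ρ₂ (τ i)) (jj ε S1 ^ n * jj ε b) - jj ε S1 ^ n * jj ε b =
        jj ε S1 ^ n * (tl (ρ₂ (τ i)) (jj ε b) - jj ε b) := by
      rw [map_mul, map_pow, hS1T]
      ring
    rw [h3]
    ring

end Pool.Agent.Y363.H
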